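import Mathlib
import Pool.Agent.Lib.MP_6179b0_nt.T.TFinal

/-!
# The negated form of the question for `|a| ≥ |b| ^ (1 - δ)`
-/

set_option autoImplicit false

namespace Pool.Agent.Results.MP_6179b0_nt.LargeCoefficient

theorem result :
    ∀ ε : ℝ, 0 < ε → ∃ (δ : ℝ) (N : ℕ), 0 < δ ∧ ∀ a b : ℤ, (N : ℤ) ≤ |b| →
      |(b : ℝ)| ^ (1 - δ) ≤ |(a : ℝ)| →
        Real.log (({n : ℤ | n ∣ b ∧ IsSquare (n + b / n + a)}.ncard : ℕ) : ℝ) ≤
          ε * Real.log |(b : ℝ)| / Real.log (Real.log |(b : ℝ)|) :=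
  fun ε hε => Pool.Agent.Lib.MP_6179b0_nt.T.large_a ε hε

end Pool.Agent.Results.MP_6179b0_nt.LargeCoefficient
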