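import Mathlib
import Pool.Agent.Lib.MP_6179b0_nt.W.Weil
import Pool.Agent.Lib.MP_6179b0_nt.Main
import Pool.Agent.Lib.MP_6179b0_nt.Final

/-!
# A power saving bound for the divisor sets `A(a, b)`
-/

set_option autoImplicit false

namespace Pool.Agent.Results.MP_6179b0_nt.PowerSaving

open Pool.Agent.Lib.MP_6179b0_nt

/-- Power saving over the trivial bound `2 d(|b|)`, and its consequence in the form of the question. -/
theorem result :
    ∀ ε : ℝ, 0 < ε →
      (∃ M : ℝ, ∀ a b : ℤ, b ≠ 0 → a ^ 2 ≠ 4 * b →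
        (({n : ℤ | n ∣ b ∧ IsSquare (n + b / n + a)}.ncard : ℕ) : ℝ) ≤
          M * (b.natAbs.divisors.card : ℝ) ^ (3 / 4 + ε) * (1 + Real.log |(b : ℝ)|) ^ M) ∧
      ∃ N : ℕ, ∀ a b : ℤ, (N : ℤ) ≤ |b| → a ^ 2 ≠ 4 * b →
        Real.log (({n : ℤ | n ∣ b ∧ IsSquare (n + b / n + a)}.ncard : ℕ) : ℝ) ≤
          (3 / 4 * Real.log 2 + ε) * Real.log |(b : ℝ)| / Real.log (Real.log |(b : ℝ)|) := by
  intro ε hε
  have e : (1 + (1 / 2 : ℝ)) / 2 = 3 / 4 := by norm_num
  constructor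
  · obtain ⟨M, hM⟩ := main W.bnd_half (by norm_num) (by norm_num) (by norm_num) ε hε
    refine ⟨M, fun a b hb hab => ?_⟩
    have h := hM a b hb hab
    rw [e] at h
    exact h
  · obtain ⟨N, hN⟩ := final W.bnd_half (by norm_num) (by norm_num) (by norm_num) ε hε
    refine ⟨N, fun a b hb hab => ?_⟩
    have h := hN a b hb hab
    rw [e] at h
    exact h

end Pool.Agent.Results.MP_6179b0_nt.PowerSaving
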